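import Mathlib

/-!
# The corner entry of a thin-bezel random contingency table does not concentrate

If the four entries in the first two rows and columns were all within a factor `1 ± 1 / 8` of
some number `c`, then adding `k > c / 4` to the entries `(1, 1)` and `(2, 2)` and subtracting it
from the entries `(1, 2)` and `(2, 1)` gives a table for which this fails. This map is injective,
so the probability of the event is at most `1 / 2`, whatever `c` is.
-/

open Filter Topology MeasureTheory ProbabilityTheory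

namespace Pool.Agent.Results.MP_2c00b8_pr.CornerNotGaussian

/-- The `N × N` matrices with entries in `ℕ`, row sums `r` and column sums `r`. -/
def tables {N : ℕ} (r : Fin N → ℕ) : Set (Fin N → Fin N → ℕ) :=
  {a | (∀ i, ∑ j, a i j = r i) ∧ ∀ j, ∑ i, a i j = r j}

/-- The margins: the first `m` ones are `⌊B C n⌋` and the remaining `n` ones are `⌊C n⌋`. -/
noncomputable def margin (B C : ℝ) (m n : ℕ) (i : Fin (m + n)) : ℕ :=
  if (i : ℕ) < m then ⌊B * C * n⌋₊ else ⌊C * n⌋₊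

/-- The probability of the event `E` under the uniform distribution on the finite set `M`. -/
noncomputable def unifProb {α : Type*} (M E : Set α) : ℝ := ((M ∩ E).ncard : ℝ) / (M.ncard : ℝ)

/-- The top-left entry. -/
def corner {N : ℕ} (a : Fin N → Fin N → ℕ) : ℕ := if h : 0 < N then a ⟨0, h⟩ ⟨0, h⟩ else 0

/-- The critical value `B_c`. -/
noncomputable def Bc (C : ℝ) : ℝ := 1 + √(1 + 1 / C)

/-- `M_{n,δ}(B, C)`. -/
noncomputable def M (B C δ : ℝ) (n : ℕ) :
    Set (Fin (⌊(n : ℝ) ^ δ⌋₊ + n) → Fin (⌊(n : ℝ) ^ δ⌋₊ + n) → ℕ) :=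
  tables (margin B C ⌊(n : ℝ) ^ δ⌋₊ n)

section Abstract

variable {N : ℕ} {r : Fin N → ℕ}

lemma finite_tables : (tables r).Finite := by
  refine (Set.finite_Iic (fun i (_ : Fin N) => r i)).subset fun a ha => ?_
  intro i j
  change a i j ≤ r i
  rw [← ha.1 i]
  exact Finset.single_le_sum (f := fun j => a i j) (fun _ _ => Nat.zero_le _) (Finset.mem_univ j)

lemma tables_nonempty : (tables r).Nonempty := by
  refine ⟨fun i j => if i = j then r i else 0, fun i => by simp, fun j => by simp⟩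

lemma ncard_pos : 0 < (tables r).ncard :=
  (Set.ncard_pos finite_tables).2 tables_nonempty

/-- The signs of the switching. -/
def sg (i₀ i₁ i : Fin N) : ℤ := (if i = i₀ then 1 else 0) - (if i = i₁ then 1 else 0)

lemma sum_sg (i₀ i₁ : Fin N) : ∑ i, sg i₀ i₁ i = 0 := by
  unfold sg
  rw [Finset.sum_sub_distrib]
  simp

/-- The switching. -/
def sw (i₀ i₁ : Fin N) (k : ℕ) (a : Fin N → Fin N → ℕ) (i j : Fin N) : ℕ :=
  ((a i j : ℤ) + k * (sg i₀ i₁ i * sg i₀ i₁ j)).toNat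

/-- The event that the four entries are close to `c`. -/
def close (i₀ i₁ : Fin N) (c : ℝ) : Set (Fin N → Fin N → ℕ) :=
  {a | |(a i₀ i₀ : ℝ) - c| ≤ c / 8 ∧ |(a i₀ i₁ : ℝ) - c| ≤ c / 8 ∧
    |(a i₁ i₀ : ℝ) - c| ≤ c / 8 ∧ |(a i₁ i₁ : ℝ) - c| ≤ c / 8}

lemma cast_sw {i₀ i₁ : Fin N} (h01 : i₀ ≠ i₁) {c : ℝ} (hc : 2 ≤ c) {a : Fin N → Fin N → ℕ}
    (ha : a ∈ close i₀ i₁ c) (i j : Fin N) :
    (sw i₀ i₁ (⌊c / 4⌋₊ + 1) a i j : ℤ) =
      (a i j : ℤ) + ((⌊c / 4⌋₊ + 1 : ℕ) : ℤ) * (sg i₀ i₁ i * sg i₀ i₁ j) := by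
  unfold sw
  rw [Int.toNat_of_nonneg]
  have hk : ((⌊c / 4⌋₊ + 1 : ℕ) : ℝ) ≤ 7 * c / 8 := by
    push_cast
    have := Nat.floor_le (show 0 ≤ c / 4 by linarith)
    linarith
  have h1 : ∀ x : ℕ, |(x : ℝ) - c| ≤ c / 8 → ⌊c / 4⌋₊ + 1 ≤ x := by
    intro x hx
    have h2 := (abs_le.1 hx).1
    have h3 : ((⌊c / 4⌋₊ + 1 : ℕ) : ℝ) ≤ (x : ℝ) := by linarith
    exact_mod_cast h3
  have h2 := h1 _ ha.2.1
  have h3 := h1 _ ha.2.2.1
  unfold sg
  by_cases hi0 : i = i₀
  · subst hi0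
    by_cases hj0 : j = i
    · subst hj0
      simp [h01]
      omega
    · by_cases hj1 : j = i₁
      · subst hj1
        simp [h01, Ne.symm h01]
        omega
      · simp [hj0, hj1]
  · by_cases hi1 : i = i₁
    · subst hi1
      by_cases hj0 : j = i₀
      · subst hj0
        simp [h01, Ne.symm h01]
        omega
      · by_cases hj1 : j = i
        · subst hj1
          simp [Ne.symm h01]
          omega
        · simp [hj0, hj1]
    · simp [hi0, hi1]

lemma sw_mem {i₀ i₁ : Fin N} (h01 : i₀ ≠ i₁) {c : ℝ} (hc : 2 ≤ c) {a : Fin N → Fin N → ℕ}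
    (haM : a ∈ tables r) (ha : a ∈ close i₀ i₁ c) :
    sw i₀ i₁ (⌊c / 4⌋₊ + 1) a ∈ tables r \ close i₀ i₁ c := by
  refine ⟨⟨fun i => ?_, fun j => ?_⟩, fun h => ?_⟩
  · have h1 : ((∑ j, sw i₀ i₁ (⌊c / 4⌋₊ + 1) a i j : ℕ) : ℤ) = (r i : ℤ) := by
      rw [Nat.cast_sum, Finset.sum_congr rfl fun j _ => cast_sw h01 hc ha i j,
        Finset.sum_add_distrib, ← Finset.mul_sum, ← Finset.mul_sum, sum_sg, mul_zero, mul_zero,
        add_zero, ← Nat.cast_sum, haM.1 i]
    exact_mod_cast h1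
  · have h1 : ((∑ i, sw i₀ i₁ (⌊c / 4⌋₊ + 1) a i j : ℕ) : ℤ) = (r j : ℤ) := by
      rw [Nat.cast_sum, Finset.sum_congr rfl fun i _ => cast_sw h01 hc ha i j,
        Finset.sum_add_distrib, ← Finset.mul_sum, ← Finset.sum_mul, sum_sg, zero_mul, mul_zero,
        add_zero, ← Nat.cast_sum, haM.2 j]
    exact_mod_cast h1
  · have h1 := cast_sw h01 hc ha i₀ i₀
    have h2 : sg i₀ i₁ i₀ = 1 := by simp [sg, h01]
    rw [h2, mul_one, mul_one] at h1
    have h3 : (sw i₀ i₁ (⌊c / 4⌋₊ + 1) a i₀ i₀ : ℝ) =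
        (a i₀ i₀ : ℝ) + ((⌊c / 4⌋₊ + 1 : ℕ) : ℝ) := by exact_mod_cast h1
    have h4 := (abs_le.1 h.1).2
    have h5 := (abs_le.1 ha.1).1
    have h6 := Nat.lt_floor_add_one (c / 4)
    rw [h3] at h4
    push_cast at h4
    linarith

lemma close_le {i₀ i₁ : Fin N} (h01 : i₀ ≠ i₁) {c : ℝ} (hc : 2 ≤ c) :
    (tables r ∩ close i₀ i₁ c).ncard ≤ (tables r \ close i₀ i₁ c).ncard := by
  refine Set.ncard_le_ncard_of_injOn (sw i₀ i₁ (⌊c / 4⌋₊ + 1))
    (fun a ha => sw_mem h01 hc ha.1 ha.2) (fun a ha b hb hab => ?_)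
    (finite_tables.subset Set.sdiff_subset)
  funext i j
  have h1 := cast_sw h01 hc ha.2 i j
  have h2 := cast_sw h01 hc hb.2 i j
  rw [hab] at h1
  have h3 : (a i j : ℤ) = b i j := by linarith
  exact_mod_cast h3

lemma far_le (σ τ : Equiv.Perm (Fin N)) (hσ : ∀ i, r (σ i) = r i) (hτ : ∀ i, r (τ i) = r i)
    (i₀ : Fin N) (c : ℝ) :
    (tables r ∩ {a | c / 8 < |(a (σ i₀) (τ i₀) : ℝ) - c|}).ncard ≤
      (tables r ∩ {a | c / 8 < |(a i₀ i₀ : ℝ) - c|}).ncard := by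
  refine Set.ncard_le_ncard_of_injOn (fun a i j => a (σ i) (τ j)) (fun a ha => ?_)
    (fun a _ b _ hab => ?_) (finite_tables.subset Set.inter_subset_left)
  · refine ⟨⟨fun i => ?_, fun j => ?_⟩, ha.2⟩
    · rw [Equiv.sum_comp τ (fun j => a (σ i) j), ha.1.1, hσ]
    · rw [Equiv.sum_comp σ (fun i => a i (τ j)), ha.1.2, hτ]
  · funext i j
    have := congrFun (congrFun hab (σ.symm i)) (τ.symm j)
    simpa using this

/-- The corner entry is not within a factor `1 ± 1 / 8` of `c` with probability `≥ 1 / 8`. -/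
lemma far_ge {i₀ i₁ : Fin N} (h01 : i₀ ≠ i₁) (hr : r i₀ = r i₁) {c : ℝ} (hc : 2 ≤ c) :
    1 / 8 ≤ unifProb (tables r) {a | c / 8 < |(a i₀ i₀ : ℝ) - c|} := by
  set D := (tables r ∩ {a | c / 8 < |(a i₀ i₀ : ℝ) - c|}).ncard with hD
  have hsw : ∀ i, r (Equiv.swap i₀ i₁ i) = r i := by
    intro i
    by_cases h0 : i = i₀
    · rw [h0, Equiv.swap_apply_left, hr]
    · by_cases h1 : i = i₁
      · rw [h1, Equiv.swap_apply_right, hr]
      · rw [Equiv.swap_apply_of_ne_of_ne h0 h1]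
  have h1 : (tables r ∩ {a | c / 8 < |(a i₀ i₁ : ℝ) - c|}).ncard ≤ D := by
    have := far_le (r := r) (Equiv.refl _) (Equiv.swap i₀ i₁) (fun _ => rfl) hsw i₀ c
    rwa [Equiv.swap_apply_left] at this
  have h2 : (tables r ∩ {a | c / 8 < |(a i₁ i₀ : ℝ) - c|}).ncard ≤ D := by
    have := far_le (r := r) (Equiv.swap i₀ i₁) (Equiv.refl _) hsw (fun _ => rfl) i₀ c
    rwa [Equiv.swap_apply_left] at this
  have h3 : (tables r ∩ {a | c / 8 < |(a i₁ i₁ : ℝ) - c|}).ncard ≤ D := by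
    have := far_le (r := r) (Equiv.swap i₀ i₁) (Equiv.swap i₀ i₁) hsw hsw i₀ c
    rwa [Equiv.swap_apply_left] at this
  have hsub : tables r \ close i₀ i₁ c ⊆
      ((tables r ∩ {a | c / 8 < |(a i₀ i₀ : ℝ) - c|}) ∪
        (tables r ∩ {a | c / 8 < |(a i₀ i₁ : ℝ) - c|})) ∪
      ((tables r ∩ {a | c / 8 < |(a i₁ i₀ : ℝ) - c|}) ∪
        (tables r ∩ {a | c / 8 < |(a i₁ i₁ : ℝ) - c|})) := by
    rintro a ⟨haM, hac⟩
    by_contra hcon
    apply hac
    simp only [Set.mem_union, Set.mem_inter_iff, Set.mem_ofPred_eq, haM, true_and, not_or,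
      not_lt] at hcon
    exact ⟨hcon.1.1, hcon.1.2, hcon.2.1, hcon.2.2⟩
  have h4 : (tables r \ close i₀ i₁ c).ncard ≤ 4 * D := by
    refine (Set.ncard_le_ncard hsub ?_).trans ?_
    · exact finite_tables.subset (Set.union_subset
        (Set.union_subset Set.inter_subset_left Set.inter_subset_left)
        (Set.union_subset Set.inter_subset_left Set.inter_subset_left))
    · refine (Set.ncard_union_le _ _).trans ?_
      have h5 := Set.ncard_union_le (tables r ∩ {a | c / 8 < |(a i₀ i₀ : ℝ) - c|})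
        (tables r ∩ {a | c / 8 < |(a i₀ i₁ : ℝ) - c|})
      have h6 := Set.ncard_union_le (tables r ∩ {a | c / 8 < |(a i₁ i₀ : ℝ) - c|})
        (tables r ∩ {a | c / 8 < |(a i₁ i₁ : ℝ) - c|})
      omega
  have h5 := close_le (r := r) h01 hc
  have h6 : (tables r).ncard = (tables r ∩ close i₀ i₁ c).ncard +
      (tables r \ close i₀ i₁ c).ncard :=
    (Set.ncard_inter_add_ncard_sdiff_eq_ncard _ _ finite_tables).symm
  have h7 : (tables r).ncard ≤ 8 * D := by omega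
  have h8 : (0 : ℝ) < (tables r).ncard := by exact_mod_cast ncard_pos
  unfold unifProb
  rw [le_div_iff₀ h8]
  have h9 : ((tables r).ncard : ℝ) ≤ 8 * (D : ℝ) := by exact_mod_cast h7
  linarith

end Abstract

lemma unifProb_mono {α : Type*} {M E F : Set α} (hM : M.Finite) (h : E ⊆ F) :
    unifProb M E ≤ unifProb M F := by
  unfold unifProb
  refine div_le_div_of_nonneg_right ?_ (Nat.cast_nonneg _)
  exact_mod_cast Set.ncard_le_ncard (Set.inter_subset_inter_right M h)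
    (hM.subset Set.inter_subset_left)

lemma unifProb_union {α : Type*} {M E F : Set α} :
    unifProb M (E ∪ F) ≤ unifProb M E + unifProb M F := by
  unfold unifProb
  rw [Set.inter_union_distrib_left, ← add_div]
  gcongr
  exact_mod_cast Set.ncard_union_le _ _

lemma unifProb_compl {α : Type*} {M E : Set α} (hM : M.Finite) (hne : M.Nonempty) :
    unifProb M Eᶜ = 1 - unifProb M E := by
  have h0 : (0 : ℝ) < M.ncard := by exact_mod_cast (Set.ncard_pos hM).2 hne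
  unfold unifProb
  have h1 := Set.ncard_inter_add_ncard_sdiff_eq_ncard M E hM
  have h2 : (M ∩ Eᶜ : Set α) = M \ E := rfl
  rw [h2, eq_sub_iff_add_eq, ← add_div, div_eq_one_iff_eq h0.ne']
  have h3 : ((M ∩ E).ncard : ℝ) + ((M \ E).ncard : ℝ) = M.ncard := by exact_mod_cast h1
  linarith

/-- Anti-concentration of the corner entry. -/
lemma corner_far (B C : ℝ) {m n : ℕ} (hm : 2 ≤ m) {c : ℝ} (hc : 2 ≤ c) :
    1 / 8 ≤ unifProb (tables (margin B C m n)) {a | c / 8 < |(corner a : ℝ) - c|} := by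
  have h0 : 0 < m + n := by omega
  have h1 : 1 < m + n := by omega
  have h2 : ∀ a : Fin (m + n) → Fin (m + n) → ℕ, corner a = a ⟨0, h0⟩ ⟨0, h0⟩ := by
    intro a
    unfold corner
    rw [dif_pos h0]
  simp only [h2]
  refine far_ge (i₁ := ⟨1, h1⟩) ?_ ?_ hc
  · intro h
    have := congrArg Fin.val h
    simp at this
  · unfold margin
    have h3 : 0 < m := by omega
    have h4 : 1 < m := by omega
    simp [h3, h4]

/-- **No Gaussian limit, and no concentration at all, for the corner entry.** For all `C > 0`,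
`B > B_c` and `0 < δ < 1`: whenever `⌊n ^ δ⌋ ≥ 2` and `c ≥ 2`, the corner entry `X₁₁` of a
uniform table satisfies `P (|X₁₁ - c| > c / 8) ≥ 1 / 8`; and the distribution functions of
`(X₁₁ - C (B - B_c) n^(1-δ)) / (n^((1-δ)/2) √(B_c C + (B_c C)²))` do not converge to the standard
normal distribution function. -/
theorem result (B C δ : ℝ) (hC : 0 < C) (hB : Bc C < B) (_hδ0 : 0 < δ) (hδ1 : δ < 1) :
    (∀ n : ℕ, 2 ≤ ⌊(n : ℝ) ^ δ⌋₊ → ∀ c : ℝ, 2 ≤ c →
      1 / 8 ≤ unifProb (M B C δ n) {a | c / 8 < |(corner a : ℝ) - c|}) ∧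
    ¬ ∀ t : ℝ, Tendsto (fun n : ℕ => unifProb (M B C δ n)
      {a | ((corner a : ℝ) - C * (B - Bc C) * (n : ℝ) ^ (1 - δ)) /
        ((n : ℝ) ^ ((1 - δ) / 2) * √(Bc C * C + (Bc C * C) ^ 2)) ≤ t})
      atTop (𝓝 (cdf (gaussianReal 0 1) t)) := by
  refine ⟨fun n hn c hc => corner_far B C hn hc, fun hclt => ?_⟩
  have h1 := tendsto_cdf_atTop (gaussianReal 0 1)
  have h2 := tendsto_cdf_atBot (gaussianReal 0 1)
  obtain ⟨T₁, hT₁⟩ := (h1.eventually_const_lt (show (15 / 16 : ℝ) < 1 by norm_num)).exists_forall_of_atTop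
  obtain ⟨T₂, hT₂⟩ := (h2.eventually_lt_const (show (0 : ℝ) < 1 / 16 by norm_num)).exists_forall_of_atBot
  set T := max (max T₁ (-T₂)) 1 with hT
  have hT1 : T₁ ≤ T := (le_max_left _ _).trans (le_max_left _ _)
  have hT2 : -T ≤ T₂ := by
    have : -T₂ ≤ T := (le_max_right _ _).trans (le_max_left _ _)
    linarith
  have hT0 : 1 ≤ T := le_max_right _ _
  have e1 := (hclt T).eventually_const_lt (hT₁ T hT1)
  have e2 := (hclt (-T)).eventually_lt_const (hT₂ (-T) hT2)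
  set σ := √(Bc C * C + (Bc C * C) ^ 2) with hσ
  have hBc : 0 < Bc C := by unfold Bc; positivity
  have hσ0 : 0 < σ := Real.sqrt_pos.2 (by positivity)
  have hA : 0 < C * (B - Bc C) := mul_pos hC (by linarith)
  have e3 : Tendsto (fun n : ℕ => (n : ℝ) ^ ((1 - δ) / 2)) atTop atTop :=
    (tendsto_rpow_atTop (by linarith)).comp tendsto_natCast_atTop_atTop
  have e4 : Tendsto (fun n : ℕ => (n : ℝ) ^ δ) atTop atTop :=
    (tendsto_rpow_atTop _hδ0).comp tendsto_natCast_atTop_atTop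
  obtain ⟨n, hn1, hn2, hn3, hn4, hn5, hn6⟩ := (e1.and (e2.and ((e3.eventually_ge_atTop
    (8 * T * σ / (C * (B - Bc C)))).and ((e3.eventually_ge_atTop
    (max 1 (2 / (C * (B - Bc C))))).and ((e4.eventually_ge_atTop 2).and
    (eventually_gt_atTop 0)))))).exists
  have hn0 : (0 : ℝ) < n := by exact_mod_cast hn6
  set s := (n : ℝ) ^ ((1 - δ) / 2) with hs
  have hs0 : 0 < s := Real.rpow_pos_of_pos hn0 _
  have hss : (n : ℝ) ^ (1 - δ) = s * s := by
    rw [hs, ← Real.rpow_add hn0]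
    congr 1
    ring
  rw [hss] at hn1 hn2
  set μ := C * (B - Bc C) * (s * s) with hμ
  have hs1 : 1 ≤ s := (le_max_left _ _).trans hn4
  have hs2 : 2 ≤ C * (B - Bc C) * s := by
    have := (le_max_right _ _).trans hn4
    rw [div_le_iff₀ hA] at this
    linarith
  have hμ2 : 2 ≤ μ := by
    rw [hμ, ← mul_assoc]
    nlinarith
  have hμs : T * (s * σ) ≤ μ / 8 := by
    rw [div_le_iff₀ hA] at hn3
    rw [hμ]
    nlinarith
  have hfl : 2 ≤ ⌊(n : ℝ) ^ δ⌋₊ := Nat.le_floor (by exact_mod_cast hn5)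
  have hfar := corner_far B C (n := n) hfl hμ2
  have hfin : (M B C δ n).Finite := finite_tables
  have hsub : {a : Fin (⌊(n : ℝ) ^ δ⌋₊ + n) → Fin (⌊(n : ℝ) ^ δ⌋₊ + n) → ℕ |
      μ / 8 < |(corner a : ℝ) - μ|} ⊆
      {a | ((corner a : ℝ) - μ) / (s * σ) ≤ T}ᶜ ∪ {a | ((corner a : ℝ) - μ) / (s * σ) ≤ -T} := by
    intro a ha
    have ha' : μ / 8 < |(corner a : ℝ) - μ| := ha
    rcases lt_abs.1 ha' with h | h
    · left
      change ¬ (((corner a : ℝ) - μ) / (s * σ) ≤ T)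
      rw [div_le_iff₀ (by positivity)]
      linarith
    · right
      change ((corner a : ℝ) - μ) / (s * σ) ≤ -T
      rw [div_le_iff₀ (by positivity)]
      linarith
  have h5 := (unifProb_mono hfin hsub).trans unifProb_union
  rw [unifProb_compl hfin tables_nonempty] at h5
  have h6 : 1 / 8 ≤ unifProb (M B C δ n) {a | μ / 8 < |(corner a : ℝ) - μ|} := hfar
  linarith

end Pool.Agent.Results.MP_2c00b8_pr.CornerNotGaussian
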